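import Pool.Agent.W476.TP.Base

set_option autoImplicit false

/-!
# Project TP: the projection to the `z`-coordinates is closed
-/

namespace Pool.Agent.W356.TP

open MvPolynomial
open Pool.Agent.W476.TP

/-- The graded component of a product with a homogeneous polynomial. -/
theorem wcomp_mul {σ K M : Type} [Field K] [AddCommMonoid M] [IsRightCancelAdd M] (w : σ → M)
    (c P : MvPolynomial σ K) (e d : M) (hP : IsWeightedHomogeneous w P d) :
    weightedHomogeneousComponent w (e + d) (c * P) = weightedHomogeneousComponent w e c * P := by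
  classical
  have hmon : ∀ (α : σ →₀ ℕ) (a : K), weightedHomogeneousComponent w (e + d) (monomial α a * P) =
      weightedHomogeneousComponent w e (monomial α a) * P := by
    intro α a
    have h1 : IsWeightedHomogeneous w (monomial α a) (Finsupp.weight w α) :=
      isWeightedHomogeneous_monomial w α a rfl
    by_cases h : e = Finsupp.weight w α
    · rw [h, (h1.mul hP).weightedHomogeneousComponent_same, h1.weightedHomogeneousComponent_same]
    · rw [(h1.mul hP).weightedHomogeneousComponent_ne _ (fun h' => h (add_right_cancel h')),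
        h1.weightedHomogeneousComponent_ne _ h, zero_mul]
  have h2 : c * P = ∑ α ∈ c.support, monomial α (coeff α c) * P := by
    rw [← Finset.sum_mul, ← c.as_sum]
  rw [h2, map_sum]
  simp_rw [hmon]
  rw [← Finset.sum_mul, ← map_sum, ← c.as_sum]

/-- Nakayama in the form used below. -/
theorem nak {R A : Type*} [CommRing R] [CommRing A] (ψ : R →+* A) (I : Ideal R) (S : Set A)
    (hS : S.Finite)
    (h : ∀ b ∈ S, ∀ W : AddSubgroup A, (∀ x ∈ I, ∀ s ∈ S, ψ x * s ∈ W) → b ∈ W) :
    ∃ g : R, g - 1 ∈ I ∧ ∀ s ∈ S, ψ g * s = 0 := by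
  let _ : Algebra R A := ψ.toAlgebra
  have hsm : ∀ (x : R) (a : A), x • a = ψ x * a := fun _ _ => rfl
  obtain ⟨g, hg1, hg2⟩ := Submodule.exists_sub_one_mem_and_smul_eq_zero_of_fg_of_le_smul I
    (Submodule.span R S) (Submodule.fg_span hS) (by
      rw [Submodule.span_le]
      intro b hb
      exact h b hb (I • Submodule.span R S).toAddSubgroup (fun x hx s hs =>
        Submodule.smul_mem_smul hx (Submodule.subset_span hs)))
  exact ⟨g, hg1, fun s hs => hg2 s (Submodule.subset_span hs)⟩

section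

variable {L : Type} [Field L] {r n c : ℕ} (m : Fin r → ℕ)

/-- The product of one coordinate in each group. -/
noncomputable def YY (L : Type) [Field L] (n : ℕ) (i : ∀ κ, Fin (m κ + 1)) :
    MvPolynomial (Sig m ⊕ Fin (n + 1)) L :=
  ∏ κ, X (Sum.inl ⟨κ, i κ⟩)

theorem YY_hom (D : Fin r → ℕ) (i : ∀ κ, Fin (m κ + 1)) :
    IsWeightedHomogeneous (wt2 m D n) (YY m L n i) (fun _ => 1) := by
  unfold YY
  have h := IsWeightedHomogeneous.prod (w := wt2 m D n) Finset.univ
    (fun κ : Fin r => (X (Sum.inl ⟨κ, i κ⟩) : MvPolynomial (Sig m ⊕ Fin (n + 1)) L))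
    (fun κ => Pi.single κ 1) (fun κ _ => isWeightedHomogeneous_X L (wt2 m D n) _)
  convert h using 1
  funext κ
  rw [Finset.sum_apply, Finset.sum_eq_single κ]
  · simp
  · intro b _ hb; simp [Pi.single_eq_of_ne' hb]
  · simp

theorem YY_pow_hom (D : Fin r → ℕ) (i : ∀ κ, Fin (m κ + 1)) (N : ℕ) :
    IsWeightedHomogeneous (wt2 m D n) (YY m L n i ^ N) (fun _ => N) := by
  have := (YY_hom (L := L) (n := n) m D i).pow N
  convert this using 1
  funext κ; simp

/-- The ideal of the system. -/
noncomputable def JJ (G : Fin (n + 1) → Polynomial (MvPolynomial (Sig m) L))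
    (H : Fin c → MvPolynomial (Sig m) L) : Ideal (MvPolynomial (Sig m ⊕ Fin (n + 1)) L) :=
  Ideal.span (Set.range fun j => rename Sum.inl (H j)) ⊔ Ideal.span (Set.range fun i => gz (G i) i)

theorem JJ_comp (D : Fin r → ℕ) (G : Fin (n + 1) → Polynomial (MvPolynomial (Sig m) L))
    (t : Fin (n + 1) → ℕ) (hG : ∀ i, MonicMH D (G i) (t i))
    (H : Fin c → MvPolynomial (Sig m) L) (b : Fin c → Fin r → ℕ) (hH : ∀ j, MH (H j) (b j))
    (P : MvPolynomial (Sig m ⊕ Fin (n + 1)) L) (hP : P ∈ JJ m G H) (δ : Fin r → ℕ) :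
    weightedHomogeneousComponent (wt2 m D n) δ P ∈ JJ m G H := by
  let _ : GradedAlgebra (weightedHomogeneousSubmodule L (wt2 m D n)) :=
    weightedGradedAlgebra L (wt2 m D n)
  have hhom : (JJ m G H).IsHomogeneous (weightedHomogeneousSubmodule L (wt2 m D n)) := by
    unfold JJ
    apply Ideal.IsHomogeneous.sup
    · apply Ideal.homogeneous_span
      rintro _ ⟨j, rfl⟩
      exact ⟨b j, rename_hom (hH j) D n⟩
    · apply Ideal.homogeneous_span
      rintro _ ⟨i, rfl⟩
      exact ⟨t i • D, gz_hom (hG i) i⟩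
  exact weightedHomogeneousComponent_mem_of_mem L (wt2 m D n) hhom hP δ

theorem JJ_eval (G : Fin (n + 1) → Polynomial (MvPolynomial (Sig m) L))
    (H : Fin c → MvPolynomial (Sig m) L) (y : Sig m → L) (z : Fin (n + 1) → L) :
    (∀ P ∈ JJ m G H, eval (Sum.elim y z) P = 0) ↔
      (∀ j, eval y (H j) = 0) ∧ ∀ i, ev (G i) y (z i) = 0 := by
  constructor
  · intro h
    constructor
    · intro j
      have := h _ (Ideal.mem_sup_left (Ideal.subset_span (Set.mem_range_self j)))
      rwa [eval_rename, Sum.elim_comp_inl] at this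
    · intro i
      have := h _ (Ideal.mem_sup_right (Ideal.subset_span (Set.mem_range_self i)))
      rwa [eval_gz] at this
  · rintro ⟨h1, h2⟩ P hP
    have hle : JJ m G H ≤ RingHom.ker (eval (Sum.elim y z)) := by
      unfold JJ
      rw [sup_le_iff, Ideal.span_le, Ideal.span_le]
      constructor
      · rintro _ ⟨j, rfl⟩
        show eval (Sum.elim y z) (rename Sum.inl (H j)) = 0
        rw [eval_rename, Sum.elim_comp_inl, h1 j]
      · rintro _ ⟨i, rfl⟩
        show eval (Sum.elim y z) (gz (G i) i) = 0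
        rw [eval_gz, h2 i]
    exact hle hP

theorem rename_inr_hom (D : Fin r → ℕ) (P : MvPolynomial (Fin (n + 1)) L) (l : ℕ)
    (hP : P.IsHomogeneous l) :
    IsWeightedHomogeneous (wt2 m D n) (rename Sum.inr P) (l • D) := by
  classical
  rw [P.as_sum, map_sum]
  refine IsWeightedHomogeneous.sum _ _ _ fun α hα => ?_
  rw [rename_monomial]
  refine isWeightedHomogeneous_monomial _ _ _ ?_
  have h1 : α.degree = l := by
    rw [Finsupp.degree_eq_weight_one]
    exact hP (mem_support_iff.mp hα)
  rw [← h1, Finsupp.weight_apply, Finsupp.sum_mapDomain_index]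
  · simp only [wt2, Sum.elim_inr]
    rw [Finsupp.degree_eq_sum, Finset.sum_smul, Finsupp.sum_fintype]
    intro i; exact zero_smul _ _
  · intro b; exact zero_smul _ _
  · intro b u v; exact add_smul _ _ _

theorem comp_rename (D : Fin r → ℕ) (hD : D ≠ 0) (P : MvPolynomial (Fin (n + 1)) L) (k : ℕ) :
    weightedHomogeneousComponent (wt2 m D n) (k • D) (rename Sum.inr P) =
      rename Sum.inr (homogeneousComponent k P) := by
  classical
  have hinj : ∀ l, k • D = l • D → k = l := by
    intro l h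
    obtain ⟨κ, hκ⟩ := Function.ne_iff.mp hD
    have := congrFun h κ
    simp only [Pi.smul_apply, smul_eq_mul] at this
    exact Nat.eq_of_mul_eq_mul_right (Nat.pos_of_ne_zero hκ) this
  have h1 : (rename Sum.inr P : MvPolynomial (Sig m ⊕ Fin (n + 1)) L) =
      ∑ l ∈ Finset.range (P.totalDegree + 1), rename Sum.inr (homogeneousComponent l P) := by
    rw [← map_sum, sum_homogeneousComponent]
  rw [h1, map_sum]
  have h2 : ∀ l, weightedHomogeneousComponent (wt2 m D n) (k • D)
      (rename Sum.inr (homogeneousComponent l P)) =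
      if k = l then rename Sum.inr (homogeneousComponent l P) else 0 := by
    intro l
    have h3 := rename_inr_hom m D _ l (homogeneousComponent_isHomogeneous l P)
    by_cases h : k = l
    · subst h
      rw [if_pos rfl, h3.weightedHomogeneousComponent_same]
    · rw [if_neg h, h3.weightedHomogeneousComponent_ne _ (fun h' => h (hinj l h'))]
  simp_rw [h2]
  rw [Finset.sum_ite_eq]
  split_ifs with h
  · rfl
  · rw [homogeneousComponent_eq_zero k P (by rw [Finset.mem_range] at h; omega), map_zero]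

/-- The ideal of the projection. -/
noncomputable def II (G : Fin (n + 1) → Polynomial (MvPolynomial (Sig m) L))
    (H : Fin c → MvPolynomial (Sig m) L) : Ideal (MvPolynomial (Fin (n + 1)) L) where
  carrier := {g | ∃ N : ℕ, ∀ i : ∀ κ, Fin (m κ + 1), rename Sum.inr g * YY m L n i ^ N ∈ JJ m G H}
  add_mem' := by
    rintro g g' ⟨N, hN⟩ ⟨N', hN'⟩
    refine ⟨N + N', fun i => ?_⟩
    have h1 : rename Sum.inr (g + g') * YY m L n i ^ (N + N') =
        (rename Sum.inr g * YY m L n i ^ N) * YY m L n i ^ N' +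
        (rename Sum.inr g' * YY m L n i ^ N') * YY m L n i ^ N := by
      rw [map_add, pow_add]; ring
    rw [h1]
    exact add_mem (Ideal.mul_mem_right _ _ (hN i)) (Ideal.mul_mem_right _ _ (hN' i))
  zero_mem' := ⟨0, fun i => by rw [map_zero, zero_mul]; exact zero_mem _⟩
  smul_mem' := by
    rintro a g ⟨N, hN⟩
    refine ⟨N, fun i => ?_⟩
    rw [smul_eq_mul, map_mul, mul_assoc]
    exact Ideal.mul_mem_left _ _ (hN i)

theorem II_hom (D : Fin r → ℕ) (hD : D ≠ 0) (G : Fin (n + 1) → Polynomial (MvPolynomial (Sig m) L))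
    (t : Fin (n + 1) → ℕ) (hG : ∀ i, MonicMH D (G i) (t i))
    (H : Fin c → MvPolynomial (Sig m) L) (b : Fin c → Fin r → ℕ) (hH : ∀ j, MH (H j) (b j)) :
    HomI (II m G H) := by
  rintro P ⟨N, hN⟩ k
  refine ⟨N, fun i => ?_⟩
  have h1 := JJ_comp m D G t hG H b hH _ (hN i) (k • D + fun _ => N)
  rw [wcomp_mul (wt2 m D n) _ _ _ _ (YY_pow_hom m D i N), comp_rename m D hD] at h1
  exact h1

theorem II_eval (G : Fin (n + 1) → Polynomial (MvPolynomial (Sig m) L))
    (H : Fin c → MvPolynomial (Sig m) L) (y : Sig m → L) (z : Fin (n + 1) → L) (hy : Rel y)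
    (h1 : ∀ j, eval y (H j) = 0) (h2 : ∀ i, ev (G i) y (z i) = 0) :
    ∀ P ∈ II m G H, eval z P = 0 := by
  rintro P ⟨N, hN⟩
  choose i hi using hy
  have h3 := (JJ_eval m G H y z).mpr ⟨h1, h2⟩ _ (hN i)
  rw [map_mul, map_pow, eval_rename, Sum.elim_comp_inr] at h3
  rcases mul_eq_zero.mp h3 with h | h
  · exact h
  · exfalso
    have h4 : eval (Sum.elim y z) (YY m L n i) ≠ 0 := by
      unfold YY
      rw [map_prod, Finset.prod_ne_zero_iff]
      intro κ _
      rw [eval_X, Sum.elim_inl]
      exact hi κ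
    exact h4 (eq_zero_of_pow_eq_zero h)

end

theorem t_CLO : S_NST → S_CLO := by
  intro hNST L _ _ r n c m D hD G t hG H b hH hyp
  classical
  refine ⟨II m G H, II_hom m D hD G t hG H b hH, fun z0 hz0 => ⟨fun hI => ?_, ?_⟩⟩
  swap
  · rintro ⟨y, hy, h1, h2⟩
    exact II_eval m G H y z0 hy h1 h2
  by_contra hno
  push Not at hno
  -- an index with nonzero coordinate
  obtain ⟨i0, hi0⟩ := Function.ne_iff.mp hz0
  have hi0' : z0 i0 ≠ 0 := hi0
  set a := (z0 i0)⁻¹ with ha
  have haz : a * z0 i0 = 1 := inv_mul_cancel₀ hi0'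
  -- linear forms through z0
  set ℓ : Fin (n + 1) → MvPolynomial (Fin (n + 1)) L := fun i => X i - C (z0 i * a) * X i0 with hℓ
  set K3 : Ideal (MvPolynomial (Sig m ⊕ Fin (n + 1)) L) :=
    JJ m G H ⊔ Ideal.span (Set.range fun i => rename Sum.inr (ℓ i)) with hK3
  obtain ⟨κ0, hκ0⟩ := Function.ne_iff.mp hD
  have hκ0' : D κ0 ≠ 0 := hκ0
  obtain ⟨N, hN⟩ := hNST L m D hD G t hG K3
    (fun i => Ideal.mem_sup_left (Ideal.mem_sup_right (Ideal.subset_span (Set.mem_range_self i))))
    (by
      intro y z hy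
      by_contra hcon
      push Not at hcon
      have hJ : ∀ P ∈ JJ m G H, eval (Sum.elim y z) P = 0 := fun P hP =>
        hcon P (Ideal.mem_sup_left hP)
      rw [JJ_eval] at hJ
      have hz : ∀ i, z i = (a * z i0) * z0 i := by
        intro i
        have := hcon _ (Ideal.mem_sup_right (Ideal.subset_span (Set.mem_range_self i)))
        simp only [hℓ, map_sub, map_mul, rename_X, rename_C, eval_X, eval_C, Sum.elim_inr] at this
        linear_combination this
      by_cases hc : a * z i0 = 0
      · obtain ⟨i, hi⟩ := hyp y hy hJ.1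
        apply hi
        have := hJ.2 i
        rwa [hz i, hc, zero_mul] at this
      · -- scale
        obtain ⟨μ, hμ⟩ := IsAlgClosed.exists_pow_nat_eq ((a * z i0)⁻¹) (Nat.pos_of_ne_zero hκ0')
        have hμ0 : μ ≠ 0 := by
          rintro rfl
          rw [zero_pow hκ0'] at hμ
          exact (inv_ne_zero hc) hμ.symm
        set lam : Fin r → L := Function.update 1 κ0 μ with hlam
        have hlam0 : ∀ κ, lam κ ≠ 0 := by
          intro κ
          by_cases h : κ = κ0
          · subst h; simp [hlam, hμ0]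
          · simp [hlam, Function.update_of_ne h]
        have hsp : sp lam D = (a * z i0)⁻¹ := by
          rw [← hμ]
          unfold sp
          rw [Finset.prod_eq_single κ0]
          · simp [hlam]
          · intro κ _ hκ
            simp [hlam, Function.update_of_ne hκ]
          · simp
        obtain ⟨i, hi⟩ := hno (scl lam y) (rel_scl hlam0 hy) (fun j => by
          rw [eval_scl (hH j), hJ.1 j, mul_zero])
        apply hi
        have h1 := ev_scl (hG i) lam y (z i)
        have h2 : sp lam D * z i = z0 i := by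
          rw [hsp]
          conv_lhs => rw [hz i]
          rw [← mul_assoc, inv_mul_cancel₀ hc, one_mul]
        rw [h2, hJ.2 i, mul_zero] at h1
        exact h1)
  -- Nakayama
  set η : Fin r → ℕ := fun _ => N with hη
  set ψ : MvPolynomial (Fin (n + 1)) L →+* (MvPolynomial (Sig m ⊕ Fin (n + 1)) L ⧸ JJ m G H) :=
    (Ideal.Quotient.mk (JJ m G H)).comp
      (rename Sum.inr : MvPolynomial (Fin (n + 1)) L →ₐ[L] MvPolynomial (Sig m ⊕ Fin (n + 1)) L).toRingHom
    with hψ
  have hψa : ∀ x, ψ x = Ideal.Quotient.mk (JJ m G H) (rename Sum.inr x) := fun _ => rfl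
  set S : Set (MvPolynomial (Sig m ⊕ Fin (n + 1)) L ⧸ JJ m G H) :=
    (fun α : (Sig m ⊕ Fin (n + 1)) →₀ ℕ => Ideal.Quotient.mk (JJ m G H) (monomial α 1)) ''
      {α | Finsupp.weight (wt2 m D n) α = η} with hS
  have hwne : ∀ i, (∑ κ, wt2 m D n i κ) ≠ 0 := by
    intro i
    rcases i with ⟨κ, j⟩ | i
    · have : wt2 m D n (Sum.inl ⟨κ, j⟩) κ = 1 := by simp [wt2, wt]
      intro h
      have h2 := Finset.sum_eq_zero_iff.mp h κ (Finset.mem_univ κ)
      omega
    · intro h
      have h2 := Finset.sum_eq_zero_iff.mp h κ0 (Finset.mem_univ κ0)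
      exact hκ0' h2
  have hfin : {α : (Sig m ⊕ Fin (n + 1)) →₀ ℕ | Finsupp.weight (wt2 m D n) α = η}.Finite := by
    apply (Finsupp.finite_of_nat_weight_le (fun i => ∑ κ, wt2 m D n i κ) hwne (∑ κ, η κ)).subset
    intro α hα
    have hα' : Finsupp.weight (wt2 m D n) α = η := hα
    show Finsupp.weight (fun i => ∑ κ, wt2 m D n i κ) α ≤ ∑ κ, η κ
    rw [← hα', Finsupp.weight_apply, Finsupp.weight_apply, Finsupp.sum, Finsupp.sum]
    simp only [Finset.sum_apply, Pi.smul_apply, smul_eq_mul]
    rw [Finset.sum_comm]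
    apply le_of_eq
    refine Finset.sum_congr rfl fun i _ => ?_
    rw [Finset.mul_sum]
  have hSfin : S.Finite := hfin.image _
  -- span of the monomials
  have hspan : ∀ (x : MvPolynomial (Fin (n + 1)) L) (Q : MvPolynomial (Sig m ⊕ Fin (n + 1)) L),
      IsWeightedHomogeneous (wt2 m D n) Q η → eval z0 x = 0 →
      ∀ W : AddSubgroup (MvPolynomial (Sig m ⊕ Fin (n + 1)) L ⧸ JJ m G H),
      (∀ x ∈ RingHom.ker (eval z0 : MvPolynomial (Fin (n + 1)) L →+* L), ∀ s ∈ S, ψ x * s ∈ W) →
      ψ x * Ideal.Quotient.mk (JJ m G H) Q ∈ W := by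
    intro x Q hQ hx W hW
    rw [Q.as_sum, map_sum, Finset.mul_sum]
    apply W.sum_mem
    intro α hα
    have h1 : ψ x * Ideal.Quotient.mk (JJ m G H) (monomial α (coeff α Q)) =
        ψ (x * C (coeff α Q)) * Ideal.Quotient.mk (JJ m G H) (monomial α 1) := by
      rw [map_mul, hψa (C (coeff α Q)), rename_C, mul_assoc, ← map_mul, C_mul_monomial, mul_one]
    rw [h1]
    apply hW
    · rw [RingHom.mem_ker, map_mul, hx, zero_mul]
    · exact ⟨α, hQ (mem_support_iff.mp hα), rfl⟩
  obtain ⟨g, hg1, hg2⟩ := nak ψ (RingHom.ker (eval z0 : MvPolynomial (Fin (n + 1)) L →+* L)) S hSfin (by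
    rintro _ ⟨α, hα, rfl⟩ W hW
    have hα' : Finsupp.weight (wt2 m D n) α = η := hα
    have hQ : IsWeightedHomogeneous (wt2 m D n)
        (monomial α 1 : MvPolynomial (Sig m ⊕ Fin (n + 1)) L) η :=
      isWeightedHomogeneous_monomial _ _ _ hα'
    have hXi : IsWeightedHomogeneous (wt2 m D n)
        (X (Sum.inr i0) : MvPolynomial (Sig m ⊕ Fin (n + 1)) L) D :=
      isWeightedHomogeneous_X L (wt2 m D n) (Sum.inr i0)
    have hQX := hQ.mul hXi
    have hmem := hN (η + D) (fun κ => by simp only [Pi.add_apply, hη]; omega) _ hQX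
    rw [hK3, Submodule.mem_sup] at hmem
    obtain ⟨A, hA, B, hB, hAB⟩ := hmem
    rw [Ideal.mem_span_range_iff_exists_fun] at hB
    obtain ⟨q, hq⟩ := hB
    have hℓh : ∀ i, IsWeightedHomogeneous (wt2 m D n)
        (rename Sum.inr (ℓ i) : MvPolynomial (Sig m ⊕ Fin (n + 1)) L) D := by
      intro i
      have h1 : (ℓ i).IsHomogeneous 1 := by
        simp only [hℓ]
        apply IsHomogeneous.sub
        · exact isHomogeneous_X _ _
        · have := (isHomogeneous_C (Fin (n + 1)) (z0 i * a)).mul (isHomogeneous_X L i0)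
          simpa using this
      have := rename_inr_hom m D (ℓ i) 1 h1
      rwa [one_smul] at this
    have hcomp : (monomial α 1 : MvPolynomial (Sig m ⊕ Fin (n + 1)) L) * X (Sum.inr i0) =
        weightedHomogeneousComponent (wt2 m D n) (η + D) A +
        ∑ i, weightedHomogeneousComponent (wt2 m D n) η (q i) * rename Sum.inr (ℓ i) := by
      have h1 := hQX.weightedHomogeneousComponent_same
      rw [← hAB, ← hq, map_add, map_sum] at h1
      rw [hq, hAB] at h1
      rw [← h1]
      congr 1
      refine Finset.sum_congr rfl fun i _ => ?_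
      rw [wcomp_mul (wt2 m D n) _ _ _ _ (hℓh i)]
    have hℓ0 : ∀ i, eval z0 (ℓ i) = 0 := by
      intro i
      simp only [hℓ, map_sub, map_mul, eval_X, eval_C]
      linear_combination (-z0 i) * haz
    have hkey : Ideal.Quotient.mk (JJ m G H) (monomial α 1) =
        ψ (C a * (C (z0 i0) - X i0)) * Ideal.Quotient.mk (JJ m G H) (monomial α 1) +
        ∑ i, ψ (C a * ℓ i) * Ideal.Quotient.mk (JJ m G H)
          (weightedHomogeneousComponent (wt2 m D n) η (q i)) := by
      have h0 : Ideal.Quotient.mk (JJ m G H) (weightedHomogeneousComponent (wt2 m D n) (η + D) A) = 0 :=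
        Ideal.Quotient.eq_zero_iff_mem.mpr (JJ_comp m D G t hG H b hH A hA _)
      have h1 : ∑ i, ψ (C a * ℓ i) * Ideal.Quotient.mk (JJ m G H)
          (weightedHomogeneousComponent (wt2 m D n) η (q i)) =
          ψ (C a) * Ideal.Quotient.mk (JJ m G H) (monomial α 1 * X (Sum.inr i0)) := by
        rw [hcomp, map_add, h0, zero_add, map_sum, Finset.mul_sum]
        refine Finset.sum_congr rfl fun i _ => ?_
        rw [map_mul ψ, map_mul (Ideal.Quotient.mk (JJ m G H)), hψa (ℓ i)]
        ring
      rw [h1, hψa, hψa, ← map_mul, ← map_mul, ← map_add]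
      congr 1
      simp only [map_mul, map_sub, rename_C, rename_X]
      have h2 : (C a : MvPolynomial (Sig m ⊕ Fin (n + 1)) L) * C (z0 i0) = 1 := by
        rw [← C_mul, haz, C_1]
      linear_combination (-(monomial α 1 : MvPolynomial (Sig m ⊕ Fin (n + 1)) L)) * h2
    show Ideal.Quotient.mk (JJ m G H) (monomial α 1) ∈ W
    rw [hkey]
    apply W.add_mem
    · apply hspan _ _ hQ _ W hW
      simp
    · apply W.sum_mem
      intro i _
      apply hspan _ _ (weightedHomogeneousComponent_isWeightedHomogeneous η (q i)) _ W hW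
      rw [map_mul, hℓ0 i, mul_zero])
  -- conclusion
  have hgI : g ∈ II m G H := by
    refine ⟨N, fun i => ?_⟩
    have hYh := YY_pow_hom (L := L) (n := n) m D i N
    rw [← Ideal.Quotient.eq_zero_iff_mem, map_mul, ← hψa]
    rw [(YY m L n i ^ N).as_sum, map_sum, Finset.mul_sum]
    apply Finset.sum_eq_zero
    intro α hα
    have h1 : Ideal.Quotient.mk (JJ m G H) (monomial α (coeff α (YY m L n i ^ N))) =
        Ideal.Quotient.mk (JJ m G H) (C (coeff α (YY m L n i ^ N))) *
          Ideal.Quotient.mk (JJ m G H) (monomial α 1) := by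
      rw [← map_mul, C_mul_monomial, mul_one]
    rw [h1, mul_left_comm, hg2 _ ⟨α, hYh (mem_support_iff.mp hα), rfl⟩, mul_zero]
  have h1 := hI g hgI
  have h2 : eval z0 (g - 1) = 0 := hg1
  rw [map_sub, map_one, h1] at h2
  norm_num at h2

end Pool.Agent.W356.TP
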