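import Pool.Agent.W476.TP.Stm

set_option autoImplicit false

/-!
# Project TP: upper bound of the dimension by forms
-/

namespace Pool.Agent.W356.TP

open MvPolynomial
open Pool.Agent.W476.TP

theorem ringKrullDim_le_of_integral {R S : Type*} [CommRing R] [CommRing S] (f : R →+* S)
    (hf : f.IsIntegral) : ringKrullDim S ≤ ringKrullDim R := by
  let _ : Algebra R S := f.toAlgebra
  refine Order.krullDim_le_of_strictMono (PrimeSpectrum.comap f) ?_
  intro P Q hPQ
  have hle : P.asIdeal ≤ Q.asIdeal := hPQ.le
  have hne : ¬ Q.asIdeal ≤ P.asIdeal := fun h => hPQ.not_ge h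
  obtain ⟨x, hx1, hx2⟩ := Set.not_subset.mp hne
  have := Ideal.comap_lt_comap_of_integral_mem_sdiff (R := R) hle ⟨hx1, hx2⟩ (hf x)
  exact this

theorem integral_of_gen {S A : Type*} [CommRing S] [CommRing A] (φ : S →+* A) (T : Set A)
    (hT : T.Finite)
    (h : ∀ W : AddSubgroup A, (∀ s a, a ∈ W → φ s * a ∈ W) → T ⊆ W → W = ⊤) : φ.IsIntegral := by
  let _ : Algebra S A := φ.toAlgebra
  set W : Submodule S A := Submodule.span S T with hW
  have h1 := h W.toAddSubgroup (fun s a ha => W.smul_mem s ha) Submodule.subset_span
  have hWtop : W = ⊤ := by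
    rw [eq_top_iff]
    rintro a -
    have : a ∈ W.toAddSubgroup := by rw [h1]; trivial
    exact this
  have : Module.Finite S A := by
    refine ⟨⟨hT.toFinset, ?_⟩⟩
    rw [Set.Finite.coe_toFinset]
    exact hWtop
  intro a
  exact Algebra.IsIntegral.isIntegral (R := S) a

/-- Component of a product with a homogeneous polynomial. -/
theorem comp_mul {σ K : Type} [Field K] (P g : MvPolynomial σ K) (k e : ℕ)
    (hP : P.IsHomogeneous k) :
    homogeneousComponent e (P * g) = P * (if k ≤ e then homogeneousComponent (e - k) g else 0) := by
  classical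
  have h1 : P * g = ∑ l ∈ Finset.range (g.totalDegree + 1), P * homogeneousComponent l g := by
    rw [← Finset.mul_sum, sum_homogeneousComponent]
  rw [h1, map_sum]
  have h2 : ∀ l, homogeneousComponent e (P * homogeneousComponent l g) =
      if e = k + l then P * homogeneousComponent l g else 0 := by
    intro l
    exact homogeneousComponent_of_mem (hP.mul (homogeneousComponent_isHomogeneous l g))
  simp_rw [h2]
  split_ifs with hke
  · by_cases hr : e - k ∈ Finset.range (g.totalDegree + 1)
    · rw [Finset.sum_eq_single_of_mem (e - k) hr]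
      · rw [if_pos (by omega)]
      · intro b _ hb
        rw [if_neg (by omega)]
    · rw [homogeneousComponent_eq_zero (e - k) g (by rw [Finset.mem_range] at hr; omega), mul_zero]
      apply Finset.sum_eq_zero
      intro b hb
      rw [if_neg]
      intro h
      apply hr
      have : b = e - k := by omega
      rwa [this] at hb
  · rw [mul_zero]
    apply Finset.sum_eq_zero
    intro b _
    rw [if_neg (by omega)]

theorem t_DU : S_DU := by
  intro K _ _ n d I hI P k hk hP hz
  classical
  set J : Ideal (MvPolynomial (Fin (n + 1)) K) := I ⊔ Ideal.span (Set.range P) with hJ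
  -- Nullstellensatz
  have hX : ∀ i : Fin (n + 1), ∃ N : ℕ, (X i : MvPolynomial (Fin (n + 1)) K) ^ N ∈ J := by
    intro i
    have h1 : (X i : MvPolynomial (Fin (n + 1)) K) ∈ J.radical := by
      rw [← vanishingIdeal_zeroLocus_eq_radical (K := K), mem_vanishingIdeal_iff]
      intro x hx
      have hx' : ∀ Q ∈ J, eval x Q = 0 := by
        intro Q hQ
        have := (mem_zeroLocus_iff.mp hx) Q hQ
        simpa [aeval_eq_eval] using this
      have h0 : x = 0 := hz x (fun Q hQ => hx' Q (Ideal.mem_sup_left hQ))
        (fun j => hx' _ (Ideal.mem_sup_right (Ideal.subset_span (Set.mem_range_self j))))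
      rw [h0]; simp
    exact h1
  choose N hN using hX
  set M := ∑ i, N i with hM
  have hXM : ∀ i, (X i : MvPolynomial (Fin (n + 1)) K) ^ M ∈ J := by
    intro i
    have : N i ≤ M := Finset.single_le_sum (fun _ _ => Nat.zero_le _) (Finset.mem_univ i)
    exact J.mem_of_dvd (pow_dvd_pow _ this) (hN i)
  set E := (n + 1) * M + 1 with hE
  -- monomials of large degree
  have hmon : ∀ (α : Fin (n + 1) →₀ ℕ) (c : K), E ≤ α.degree → (monomial α c : MvPolynomial (Fin (n + 1)) K) ∈ J := by
    intro α c hα
    obtain ⟨i, hi⟩ : ∃ i, M ≤ α i := by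
      by_contra hcon
      push Not at hcon
      have h1 : α.degree = ∑ i, α i := Finsupp.degree_eq_sum α
      have h2 : ∑ i, α i ≤ ∑ _i : Fin (n + 1), M := Finset.sum_le_sum fun i _ => (hcon i).le
      rw [Finset.sum_const, Finset.card_univ, Fintype.card_fin, smul_eq_mul] at h2
      omega
    have hle : Finsupp.single i M ≤ α := by
      rw [Finsupp.single_le_iff]; exact hi
    have h3 : (monomial α c : MvPolynomial (Fin (n + 1)) K) = monomial (α - Finsupp.single i M) c * X i ^ M := by
      rw [X_pow_eq_monomial, monomial_mul, mul_one, tsub_add_cancel_of_le hle]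
    rw [h3]
    exact J.mul_mem_left _ (hXM i)
  have hhom : ∀ (f : MvPolynomial (Fin (n + 1)) K) (e : ℕ), E ≤ e → f.IsHomogeneous e → f ∈ J := by
    intro f e he hf
    rw [f.as_sum]
    apply J.sum_mem
    intro α hα
    apply hmon
    have : α.degree = e := by
      have := hf (mem_support_iff.mp hα)
      rw [Finsupp.degree_eq_weight_one]
      exact this
    omega
  -- the ring homomorphism
  let φ : MvPolynomial (Fin d) K →ₐ[K] (MvPolynomial (Fin (n + 1)) K ⧸ I) := aeval (fun j => Ideal.Quotient.mk I (P j))
  have hφX : ∀ j, φ (X j) = Ideal.Quotient.mk I (P j) := fun j => aeval_X _ _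
  set S : Set (MvPolynomial (Fin (n + 1)) K ⧸ I) := (fun α : Fin (n + 1) →₀ ℕ => Ideal.Quotient.mk I (monomial α 1)) ''
    {α | α.degree ≤ E} with hS
  have hSfin : S.Finite := (Finsupp.finite_of_degree_le E).image _
  have hint : φ.toRingHom.IsIntegral := by
    apply integral_of_gen φ.toRingHom S hSfin
    intro W hWs hWT
    have hWsm : ∀ (s : MvPolynomial (Fin d) K) (a : MvPolynomial (Fin (n + 1)) K ⧸ I), a ∈ W → φ s * a ∈ W := hWs
    have hmain : ∀ (e : ℕ) (f : MvPolynomial (Fin (n + 1)) K), f.IsHomogeneous e → Ideal.Quotient.mk I f ∈ W := by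
      intro e
      induction e using Nat.strong_induction_on with
      | _ e ih =>
        intro f hf
        by_cases he : e < E
        · rw [f.as_sum, map_sum]
          apply W.sum_mem
          intro α hα
          have hαe : α.degree = e := by
            have := hf (mem_support_iff.mp hα)
            rw [Finsupp.degree_eq_weight_one]
            exact this
          have h1 : Ideal.Quotient.mk I (monomial α (coeff α f)) =
              φ (C (coeff α f)) * Ideal.Quotient.mk I (monomial α 1) := by
            have h2 : φ (C (coeff α f)) = Ideal.Quotient.mk I (C (coeff α f)) := by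
              have := φ.commutes (coeff α f)
              rw [MvPolynomial.algebraMap_eq] at this
              rw [this]
              rfl
            rw [h2, ← map_mul, C_mul_monomial, mul_one]
          rw [h1]
          apply hWsm
          apply hWT
          exact ⟨α, by show α.degree ≤ E; omega, rfl⟩
        · have hfJ := hhom f e (not_lt.mp he) hf
          rw [hJ, Submodule.mem_sup] at hfJ
          obtain ⟨a, ha, b, hb, hab⟩ := hfJ
          rw [Ideal.mem_span_range_iff_exists_fun] at hb
          obtain ⟨g, hg⟩ := hb
          have h1 : f = homogeneousComponent e a +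
              ∑ j, (if k j ≤ e then homogeneousComponent (e - k j) (g j) else 0) * P j := by
            have h2 := homogeneousComponent_eq_self hf
            rw [← h2, ← hab, ← hg, map_add, map_sum]
            congr 1
            refine Finset.sum_congr rfl fun j _ => ?_
            rw [mul_comm (g j), comp_mul _ _ _ _ (hP j), mul_comm (P j)]
          rw [h1, map_add, map_sum, Ideal.Quotient.eq_zero_iff_mem.mpr (hI a ha e), zero_add]
          apply W.sum_mem
          intro j _
          rw [mul_comm, map_mul, ← hφX j]
          apply hWsm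
          split_ifs with hke
          · exact ih (e - k j) (by have := hk j; omega) _ (homogeneousComponent_isHomogeneous _ _)
          · rw [map_zero]; exact W.zero_mem
    rw [eq_top_iff]
    rintro a -
    obtain ⟨f, rfl⟩ := Ideal.Quotient.mk_surjective a
    rw [← sum_homogeneousComponent f, map_sum]
    apply W.sum_mem
    intro e _
    exact hmain e _ (homogeneousComponent_isHomogeneous _ _)
  have h1 := ringKrullDim_le_of_integral φ.toRingHom hint
  rw [MvPolynomial.ringKrullDim_of_isNoetherianRing, ringKrullDim_eq_zero_of_field] at h1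
  simpa using h1

end Pool.Agent.W356.TP
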